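import Pool.Agent.H85.ERG.Targets

namespace Pool.Agent.H82.ERG

open MeasureTheory Set Metric Filter Topology Pool.Agent.H85.ERG Pool.Agent.H93.EN
open Pool.Agent.H93.BL hiding T_B1 T_B2 T_B3 T_SB T_SC

theorem mch (h2 : T_FO) : T_MC := by
  intro ι P κ a L hκ ha hL c x w hch
  obtain ⟨hf1, -, -⟩ := h2 ι P
  have hκa : 0 < κ * a := by positivity
  induction hch with
  | stop x w hx =>
    intro ε hε
    exact ⟨1, one_pos, fun w' _ => ⟨_, by linarith, Ch.stop x w' hx⟩⟩
  | step c s e x w x' w' hs he hM _ ih =>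
    intro ε hε
    obtain ⟨hx, hx', ha', hv, τ, hτ, hx'e, hw'e⟩ := hM
    obtain ⟨η', hη', hη⟩ := ih (ε / 2) (by positivity)
    -- choice of η
    set A : ℝ := 64 / κ * (|s| + 1) / a with hA
    have hApos : 0 < A := by positivity
    set B : ℝ := (κ * a - 128 * ‖e‖) / (128 * (|s| + 1)) with hB
    have hBpos : 0 < B := by
      have : 0 < κ * a - 128 * ‖e‖ := by linarith
      positivity
    refine ⟨min η' (min (ε / (2 * A)) B), by positivity, ?_⟩
    intro w1 hw1
    have hd1 : dist w1 w < η' := hw1.trans_le (min_le_left _ _)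
    have hd2 : dist w1 w < ε / (2 * A) :=
      hw1.trans_le ((min_le_right _ _).trans (min_le_left _ _))
    have hd3 : dist w1 w < B := hw1.trans_le ((min_le_right _ _).trans (min_le_right _ _))
    have hd0 : 0 ≤ dist w1 w := dist_nonneg
    set e1 : ℂ := e + (s : ℂ) * (w - w1) with he1
    have hV : (s : ℂ) * w1 + e1 = (s : ℂ) * w + e := by rw [he1]; ring
    have hn1 : ‖e1‖ ≤ ‖e‖ + |s| * dist w1 w := by
      calc ‖e1‖ ≤ ‖e‖ + ‖(s : ℂ) * (w - w1)‖ := norm_add_le _ _
        _ = ‖e‖ + |s| * dist w1 w := by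
          rw [norm_mul, Complex.norm_real, Real.norm_eq_abs, dist_comm, dist_eq_norm]
    set w1' : ℂ := fw P τ (x + ((s : ℂ) * w + e)) w1 with hw1'
    have hdw : dist w1' w' = dist w1 w := by
      have h3 : w1' = w' + fw P τ (x + ((s : ℂ) * w + e)) (w1 - w) := by
        rw [hw'e, hw1', ← (hf1 τ (x + ((s : ℂ) * w + e)) w).2.2.1 (w1 - w), add_sub_cancel]
      rw [dist_eq_norm, h3, add_sub_cancel_left,
        (hf1 τ (x + ((s : ℂ) * w + e)) (w1 - w)).1, dist_eq_norm]
    obtain ⟨c', hc', hch'⟩ := hη w1' (by rw [hdw]; exact hd1)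
    have he1' : 128 * ‖e1‖ < κ * a := by
      have h4 : dist w1 w * (128 * (|s| + 1)) < κ * a - 128 * ‖e‖ :=
        (lt_div_iff₀ (by positivity)).1 hd3
      nlinarith [abs_nonneg s]
    have hM1 : Mv P κ a x w1 ((s : ℂ) * w1 + e1) x' w1' := by
      refine ⟨hx, hx', ha', ?_, τ, hτ, ?_, ?_⟩
      · rw [hV]; exact hv
      · rw [hV]; exact hx'e
      · rw [hV]
    refine ⟨|s| / L + 64 / κ * ‖e1‖ / a + c', ?_, Ch.step c' s e1 x w1 x' w1' hs he1' hM1 hch'⟩
    have h5 : 64 / κ * ‖e1‖ / a ≤ 64 / κ * ‖e‖ / a + A * dist w1 w := by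
      have : 64 / κ * ‖e1‖ / a ≤ 64 / κ * (‖e‖ + (|s| + 1) * dist w1 w) / a := by
        gcongr
        nlinarith
      refine this.trans_eq ?_
      rw [hA]; ring
    have h6 : A * dist w1 w < ε / 2 := by
      have := (lt_div_iff₀ (by positivity : (0 : ℝ) < 2 * A)).1 hd2
      linarith
    linarith

end Pool.Agent.H82.ERG
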