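import Pool.Agent.H85.ERG.Targets

namespace Pool.Agent.H82.ERG

open MeasureTheory Set Metric Filter Topology Pool.Agent.H85.ERG Pool.Agent.H93.EN
open Pool.Agent.H93.BL hiding T_B1 T_B2 T_B3 T_SB T_SC

theorem st1 (h1 : T_CMP) (h2 : T_FO) : T_ST1 := by
  intro ι P κ hLS a r ha har x w α e x' w' s ε x'' w'' hw hr hI hx' hα he hs hε hM
  obtain ⟨hκ, hκ4, -, -⟩ := hLS
  obtain ⟨τ, hτ, hx'e, hw'e⟩ := hI
  obtain ⟨-, hx'', ha', -, τ'', hτ'', hx''e, hw''e⟩ := hM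
  obtain ⟨hf1, -, -⟩ := h2 ι P
  rw [add_assoc] at hx'e hw'e
  set u : ℂ := (α : ℂ) * w + e with hu
  obtain ⟨-, hinv, hadd, hsm⟩ := hf1 τ (x + u) ε
  set ε1 : ℂ := fw P τ (x + u) ε with hε1
  set v : ℂ := (s : ℂ) * w + ε1 with hv
  have hn1 : ‖ε1‖ = ‖ε‖ := (hf1 τ (x + u) ε).1
  have hfv : fw P τ (x + u) v = (s : ℂ) * w' + ε := by
    rw [hv, (hf1 τ (x + u) ((s : ℂ) * w)).2.2.1 ε1, (hf1 τ (x + u) w).2.2.2 s, ← hw'e, hε1, hinv]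
  have hκa : 0 < κ * a := by positivity
  have hκar : κ * a ≤ κ * r := by gcongr
  have hun : ‖u‖ ≤ κ * a / 128 + κ * r / 64 := by
    calc ‖u‖ ≤ ‖(α : ℂ) * w‖ + ‖e‖ := norm_add_le _ _
      _ = |α| + ‖e‖ := by rw [norm_mul, hw, mul_one, Complex.norm_real, Real.norm_eq_abs]
      _ ≤ _ := by linarith
  have hvn : ‖v‖ < κ * a / 64 := by
    calc ‖v‖ ≤ ‖(s : ℂ) * w‖ + ‖ε1‖ := norm_add_le _ _
      _ = |s| + ‖ε‖ := by rw [norm_mul, hw, mul_one, Complex.norm_real, Real.norm_eq_abs, hn1]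
      _ < _ := by linarith
  have hR : 2 * (κ * r) ≤ κ * rh P x := by nlinarith
  have hR' : κ * a / 2 < κ * rh P x' := by nlinarith
  have hland : fp P τ (x + u + v) ∈ P.Ω ∨ fp P τ'' (x' + fw P τ (x + u) v) ∈ P.Ω := by
    right; rw [hfv, ← hx''e]; exact hx''
  obtain ⟨hc1, hc2⟩ := h1 ι P x (κ * rh P x) τ x' (κ * rh P x') τ'' u v hτ hτ'' hx'e hx'
    (by linarith) (by linarith) hland
  have hfin : x + u + v = x + ((α + s : ℝ) : ℂ) * w + (e + ε1) := by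
    rw [hu, hv]; push_cast; ring
  refine ⟨e + ε1, (norm_add_le _ _).trans_eq (by rw [hn1]), τ, hτ, ?_, ?_⟩
  · rw [hx''e, ← hfin, ← hc1, hfv]
  · rw [hw''e, ← hfin, ← hc2 w, hfv, hw'e]

end Pool.Agent.H82.ERG
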